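import Mathlib

namespace Pool.Agent.Results.MP_6c10c0_co.Exists

open Finset

def M : Fin 12 → Fin 12 → ℕ :=
  ![![1, 2, 0, 1, 0, 0, 1, 1, 0, 0, 0, 0],
    ![2, 1, 0, 1, 0, 0, 0, 1, 0, 0, 0, 0],
    ![0, 0, 1, 2, 0, 1, 1, 1, 0, 1, 0, 0],
    ![1, 1, 2, 1, 0, 1, 1, 1, 1, 0, 0, 0],
    ![0, 0, 0, 0, 1, 2, 1, 1, 0, 0, 0, 0],
    ![0, 0, 1, 1, 2, 1, 1, 1, 0, 0, 0, 1],
    ![1, 0, 1, 1, 1, 1, 0, 2, 0, 1, 1, 1],
    ![1, 1, 1, 1, 1, 1, 2, 0, 0, 1, 1, 1],
    ![0, 0, 0, 1, 0, 0, 0, 0, 1, 2, 0, 0],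
    ![0, 0, 1, 0, 0, 0, 1, 1, 2, 1, 0, 0],
    ![0, 0, 0, 0, 0, 0, 1, 1, 0, 0, 1, 2],
    ![0, 0, 0, 0, 0, 1, 1, 1, 0, 0, 2, 1]]

def u : Fin 12 → ℕ := ![4, 3, 5, 7, 3, 6, 8, 9, 2, 4, 3, 4]

theorem M_symm : ∀ i j, M i j = M j i := by decide
theorem M_H : ∀ i j, M i j = 2 → M i i = M j j := by decide
theorem M_diag : ∀ i, M i i = 0 ∨ M i i = 1 := by decide
theorem M_key : ∀ i j y, i ≠ j → u i = u j →
    (M y y = 1 → M i y = 0 ∨ M j y = 0) ∧ (M y y = 0 → M i y = 1 ∨ M j y = 1) := by decide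

def R (p : ℕ) : SimpleGraph (Fin 12 × Fin p) where
  Adj x y := x ≠ y ∧ (M x.1 y.1 = 1 ∨ (M x.1 y.1 = 2 ∧ p ≤ x.2.val + y.2.val + M x.1 x.1))
  symm := ⟨by
    rintro x y ⟨h1, h2⟩
    refine ⟨h1.symm, ?_⟩
    rw [M_symm y.1 x.1]
    rcases h2 with h2 | ⟨h2, h3⟩
    · exact Or.inl h2
    · refine Or.inr ⟨h2, ?_⟩
      rw [← M_H _ _ h2]
      omega⟩
  loopless := ⟨fun _ h => h.1 rfl⟩

instance (p : ℕ) : DecidableRel (R p).Adj := fun x y =>
  inferInstanceAs (Decidable (x ≠ y ∧ (M x.1 y.1 = 1 ∨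
    (M x.1 y.1 = 2 ∧ p ≤ x.2.val + y.2.val + M x.1 x.1))))

theorem cnt (p : ℕ) (i j : Fin 12) (a : Fin p) :
    (univ.filter (fun b : Fin p => (R p).Adj (i, a) (j, b))).card + (if j = i then M i i else 0) =
      (if M i j = 1 then p else 0) + (if M i j = 2 then a.val + M i i else 0) := by
  have ha := a.2
  by_cases hij : j = i
  · subst hij
    rcases M_diag j with h | h
    · simp [R, h]
    · have : univ.filter (fun b : Fin p => (R p).Adj (j, a) (j, b)) = univ.erase a := by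
        ext b
        simp [R, h, eq_comm]
      rw [this, card_erase_of_mem (mem_univ _)]
      simp [h]
      omega
  · have hij' : i ≠ j := fun e => hij e.symm
    by_cases h1 : M i j = 1
    · simp [R, h1, hij, hij']
    · by_cases h2 : M i j = 2
      · have hd := M_diag i
        have : (univ.filter (fun b : Fin p => (R p).Adj (i, a) (j, b))).map Fin.valEmbedding =
            Ico (p - (a.val + M i i)) p := by
          ext b
          simp only [R, h2, hij', mem_map, mem_filter, mem_univ, true_and, ne_eq, Prod.mk.injEq,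
            false_and, not_false_eq_true, Fin.valEmbedding_apply, mem_Ico]
          constructor
          · rintro ⟨c, hc, rfl⟩
            have := c.2
            omega
          · intro h
            exact ⟨⟨b, h.2⟩, by simp only; omega, rfl⟩
        rw [← card_map Fin.valEmbedding, this]
        simp [h2, hij]
        omega
      · simp [R, h1, h2, hij]

theorem deg (p : ℕ) (i : Fin 12) (a : Fin p) :
    ((R p).neighborSet (i, a)).ncard = u i * p + a.val := by
  have e : ((R p).neighborSet (i, a)).ncard =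
      ∑ j, (univ.filter (fun b : Fin p => (R p).Adj (i, a) (j, b))).card := by
    rw [Set.ncard_eq_toFinset_card', Set.toFinset_card, SimpleGraph.card_neighborSet_eq_degree,
      ← SimpleGraph.card_neighborFinset_eq_degree, SimpleGraph.neighborFinset_eq_filter,
      card_filter, Fintype.sum_prod_type]
    simp only [card_filter]
  have h := sum_congr (s₁ := univ) rfl (fun j _ => cnt p i j a)
  rw [sum_add_distrib, sum_add_distrib, ← e, sum_ite_eq' univ i, if_pos (mem_univ _),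
    ← sum_filter, ← sum_filter, sum_const, sum_const, smul_eq_mul, smul_eq_mul] at h
  have h1 : ∀ i, (univ.filter (fun j => M i j = 1)).card = u i := by decide
  have h2 : ∀ i, (univ.filter (fun j => M i j = 2)).card = 1 := by decide
  rw [h1, h2] at h
  omega

def G : SimpleGraph (Fin 17) where
  Adj a b := a ≠ b ∧ (2 ≤ a.val ∨ 2 ≤ b.val)
  symm := ⟨fun _ _ h => ⟨h.1.symm, h.2.symm⟩⟩
  loopless := ⟨fun _ h => h.1 rfl⟩

theorem pig (a b : Fin 17) (g : Fin 17 → Fin 12) : ∃ c d, c ≠ d ∧ g c = g d ∧ G.Adj c d ∧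
    G.Adj a c ∧ G.Adj b c := by
  have h : ∀ a b : Fin 17, (univ : Finset (Fin 12)).card <
      (univ.filter (fun c : Fin 17 => 2 ≤ c.val ∧ a ≠ c ∧ b ≠ c)).card := by decide
  obtain ⟨c, hc, d, _, hcd, e⟩ := exists_ne_map_eq_of_card_lt_of_maps_to (h a b)
    (f := g) (fun _ _ => mem_univ _)
  simp only [mem_filter, mem_univ, true_and] at hc
  exact ⟨c, d, hcd, e, ⟨hcd, Or.inl hc.1⟩, ⟨hc.2.1, Or.inr hc.1⟩, ⟨hc.2.2, Or.inr hc.1⟩⟩

theorem result : ∃ (k : ℕ) (G : SimpleGraph (Fin k)), 2 ≤ k ∧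
    (∀ m : ℕ, IsEmpty (G ≃g (⊤ : SimpleGraph (Fin m)))) ∧
    ∀ N : ℕ, ∃ (V : Type) (_ : Finite V) (Red : SimpleGraph V), N ≤ Nat.card V ∧
      ∀ H : SimpleGraph V, H = Red ∨ H = Redᶜ → ∀ f : G.Copy H, ∀ a b : Fin k, a ≠ b →
        (Red.neighborSet (f a)).ncard ≠ (Red.neighborSet (f b)).ncard := by
  refine ⟨17, G, by norm_num, fun m => ⟨fun e => ?_⟩, fun N => ?_⟩
  · have : G.Adj 0 1 := e.map_rel_iff.1 (by simp)
    simp [G] at this
  refine ⟨Fin 12 × Fin N, inferInstance, R N, by simp; omega, ?_⟩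
  intro H hH f a b hab hdeg
  have hne : f a ≠ f b := fun e => hab (f.injective e)
  rcases ha : f a with ⟨i, x⟩
  rcases hb : f b with ⟨j, y⟩
  rw [ha, hb, deg, deg] at hdeg
  have hx := x.2
  have hy := y.2
  have hu : u i = u j := by
    rcases lt_trichotomy (u i) (u j) with h | h | h
    · have := Nat.mul_le_mul_right N (Nat.succ_le_of_lt h)
      rw [Nat.succ_mul] at this
      omega
    · exact h
    · have := Nat.mul_le_mul_right N (Nat.succ_le_of_lt h)
      rw [Nat.succ_mul] at this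
      omega
  have hij : i ≠ j := by
    rintro rfl
    apply hne
    rw [ha, hb, Fin.ext (by omega : x.val = y.val)]
  obtain ⟨c, d, hcd, e, h1, h2, h3⟩ := pig a b (fun c => (f c).1)
  have k1 : H.Adj (f c) (f d) := f.toHom.map_adj h1
  have k2 : H.Adj (f a) (f c) := f.toHom.map_adj h2
  have k3 : H.Adj (f b) (f c) := f.toHom.map_adj h3
  rw [ha] at k2
  rw [hb] at k3
  have key := M_key i j (f c).1 hij hu
  have hd := M_diag (f c).1
  rcases hH with rfl | rfl
  · have q1 := k1.2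
    have q2 := k2.2
    have q3 := k3.2
    simp only [← e] at q1 q2 q3
    omega
  · have q1 := mt (fun h => (⟨k1.1, h⟩ : (R N).Adj _ _)) k1.2
    have q2 := mt (fun h => (⟨k2.1, h⟩ : (R N).Adj _ _)) k2.2
    have q3 := mt (fun h => (⟨k3.1, h⟩ : (R N).Adj _ _)) k3.2
    simp only [← e] at q1 q2 q3
    omega

end Pool.Agent.Results.MP_6c10c0_co.Exists
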